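import Pool.Agent.Helper54.SP.StmtsP

set_option autoImplicit false

namespace Pool.Agent.Helper54.SP

open Finset

theorem comp_dt3 (X : ℕ → ℕ → ℝ) (a b c : ℕ) : dt 3 X [a, b, c] =
    X a 0 * X b 1 * X c 2 - X a 0 * X b 2 * X c 1 - X a 1 * X b 0 * X c 2 +
      X a 1 * X b 2 * X c 0 + X a 2 * X b 0 * X c 1 - X a 2 * X b 1 * X c 0 := by
  unfold dt
  rw [Matrix.det_fin_three]
  simp [Matrix.of_apply]

theorem comp_sb_not (b : Bool) : sb (!b) = -sb b := by
  cases b <;> simp [sb]

theorem comp_agree {Γ : List Gt} {X : ℕ → ℕ → ℝ}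
    (h : ∀ p q r, p < q → q < r → r < NN Γ → 0 < sb (sg0 Γ p q r) * dt 3 X [p, q, r]) :
    Agree 3 X (NN Γ) (sgm Γ) := by
  intro l hl hnd hlt
  obtain ⟨a, b, c, rfl⟩ := List.length_eq_three.1 hl
  have ha := hlt a (by simp)
  have hb := hlt b (by simp)
  have hc := hlt c (by simp)
  have hab : a ≠ b := by
    intro h1
    simp [h1] at hnd
  have hac : a ≠ c := by
    intro h1
    simp [h1] at hnd
  have hbc : b ≠ c := by
    intro h1
    simp [h1] at hnd
  have e1 : sgm Γ [a, b, c] = sg3 Γ a b c := rfl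
  rw [e1]
  unfold sg3
  by_cases h1 : a < b
  · rw [if_pos h1]
    by_cases h2 : b < c
    · rw [if_pos h2]
      exact h a b c h1 h2 hc
    · rw [if_neg h2]
      by_cases h3 : a < c
      · rw [if_pos h3, comp_sb_not]
        have h4 := h a c b h3 (by omega) hb
        rw [comp_dt3] at h4 ⊢
        linarith
      · rw [if_neg h3]
        have h4 := h c a b (by omega) h1 hb
        rw [comp_dt3] at h4 ⊢
        linarith
  · rw [if_neg h1]
    by_cases h2 : a < c
    · rw [if_pos h2, comp_sb_not]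
      have h4 := h b a c (by omega) h2 hc
      rw [comp_dt3] at h4 ⊢
      linarith
    · rw [if_neg h2]
      by_cases h3 : b < c
      · rw [if_pos h3]
        have h4 := h b c a h3 (by omega) ha
        rw [comp_dt3] at h4 ⊢
        linarith
      · rw [if_neg h3, comp_sb_not]
        have h4 := h c b a (by omega) (by omega) ha
        rw [comp_dt3] at h4 ⊢
        linarith

theorem st_COMP (hQC : ST_QC) (hKEY : ST_KEY) (hLIFTM : ST_LIFTM) (hPOLY : ST_POLY)
    (hFANS : ST_FANS) (hCOV : ST_COV) : ST_COMP := by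
  intro Γ nw m v hWF hm hN
  obtain ⟨x, y, hnn, hsg⟩ := hQC Γ nw v hWF hN
  have hA := comp_agree hsg
  have hNN : NN Γ = 4 + 8 * Γ.length := rfl
  obtain ⟨Y, hY1, hY2⟩ := hLIFTM m (NN Γ) (pl x y) (sgm Γ) (rho Γ nw) hA (hKEY Γ nw m hWF) (by
    intro i hi
    rw [Finset.sum_range_succ, Finset.sum_range_succ, Finset.sum_range_one]
    unfold pl
    by_cases h0 : i = 0
    · simp [h0]
    · by_cases h1 : i = 1
      · simp [h1]
      · have h2 := hnn i (by omega) hi
        simp only [h0, h1, if_false]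
        norm_num
        linarith [h2.1, h2.2])
  have e1 : 3 + m = 2 + m + 1 := by omega
  rw [e1] at hY1 hY2
  exact hPOLY (2 + m) (NN Γ + m) Y (chF Γ nw m) (by omega) (by omega) hY1 hY2
    (hCOV Γ nw m hWF hm (hFANS Γ nw m hWF hm))

end Pool.Agent.Helper54.SP
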