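import Pool.Agent.Helper54.SP.Stmts

set_option autoImplicit false

namespace Pool.Agent.Helper54.SP

open Finset

theorem qc_sb_true {b : Bool} {x : ℝ} (hb : b = true) (h : 0 < x) : 0 < sb b * x := by
  rw [hb, sb, if_pos rfl, one_mul]; exact h

theorem qc_sb_false {b : Bool} {x : ℝ} (hb : b = false) (h : x < 0) : 0 < sb b * x := by
  rw [hb, sb, if_neg Bool.false_ne_true]; linarith

theorem qc_grp_mono {p q : ℕ} (h : p < q) : grp p ≤ grp q := by
  unfold grp
  omega

theorem qc_crn_lt {p q : ℕ} (h : p < q) (hg : grp p = grp q) : crn p < crn q := by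
  unfold grp at hg
  unfold crn
  omega

theorem qc_crn_8 (p : ℕ) : crn p < 8 := by
  unfold crn
  omega

theorem qc_grp_small {p : ℕ} (h : p < 4) : grp p = 0 := by
  unfold grp
  omega

theorem qc_grp_big {p : ℕ} (h : 4 ≤ p) : 0 < grp p := by
  unfold grp
  omega

theorem qc_xr_8 (t : ℕ) : xr t < 8 := by
  unfold xr
  rcases Nat.lt_or_ge t 8 with h | h
  · interval_cases t <;> decide
  · rw [List.getD_eq_default _ _ (by simpa using h)]
    norm_num

theorem qc_sr_4 (t : ℕ) : sr t < 4 := by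
  unfold sr
  rcases Nat.lt_or_ge t 8 with h | h
  · interval_cases t <;> decide
  · rw [List.getD_eq_default _ _ (by simpa using h)]
    norm_num

theorem qc_gat {Γ : List Gt} {p q : ℕ} (h : grp p = grp q) : gat Γ p = gat Γ q := by
  unfold gat
  rw [h]

/-- `U` of the gate of `p` -/
noncomputable def qcU (Γ : List Gt) (v : ℕ → ℝ) (p : ℕ) : ℝ :=
  v (gat Γ p).u - cen (gat Γ p).k
noncomputable def qcU' (Γ : List Gt) (v : ℕ → ℝ) (p : ℕ) : ℝ :=
  v (gat Γ p).u' - cen (gat Γ p).k
noncomputable def qcA (Γ : List Gt) (v : ℕ → ℝ) (p : ℕ) : ℝ :=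
  v (gat Γ p).a - cen (gat Γ p).k
noncomputable def qcA' (Γ : List Gt) (v : ℕ → ℝ) (p : ℕ) : ℝ :=
  v (gat Γ p).a' - cen (gat Γ p).k
noncomputable def qcE (Γ : List Gt) (e : ℝ) (p : ℕ) : ℝ := e * 100 ^ (gat Γ p).c
noncomputable def qcxi (Γ : List Gt) (v : ℕ → ℝ) (e : ℝ) (p : ℕ) : ℝ :=
  cox (qcU Γ v p) (qcU' Γ v p) (qcE Γ e p) (crn p)
noncomputable def qceta (Γ : List Gt) (v : ℕ → ℝ) (e : ℝ) (p : ℕ) : ℝ :=
  coy (gat Γ p).k (qcU Γ v p) (qcU' Γ v p) (qcA Γ v p) (qcA' Γ v p) (qcE Γ e p) (crn p)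

theorem qc_y {Γ : List Gt} {v : ℕ → ℝ} {e : ℝ} {p : ℕ} (hp : 4 ≤ p) :
    yv Γ v e p = cen (gat Γ p).k + qceta Γ v e p := by
  have h8 := qc_crn_8 p
  unfold yv qceta coy qcU qcU' qcA qcA' qcE wir
  rw [if_neg (by omega)]
  by_cases h1 : crn p / 2 = 0
  · rw [if_pos h1, if_pos (by omega)]
    ring
  · rw [if_neg h1, if_neg (show ¬ crn p < 2 by omega)]
    by_cases h2 : crn p / 2 = 1
    · rw [if_pos h2, if_pos (by omega)]
      ring
    · rw [if_neg h2, if_neg (show ¬ crn p < 4 by omega)]
      by_cases h3 : crn p / 2 = 2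
      · rw [if_pos h3, if_pos (by omega)]
        ring
      · rw [if_neg h3, if_neg (show ¬ crn p < 6 by omega)]
        ring

/-- the context -/
structure QCC (Γ : List Gt) (nw : ℕ) (v : ℕ → ℝ) (e : ℝ) : Prop where
  wf : WF Γ nw
  nice : Nice Γ nw v
  gx : ST_GX
  gs : ST_GS
  gd1 : ST_GD1
  gd2 : ST_GD2
  gt : ST_GT
  kx : ∀ p q, 2 ≤ p → 2 ≤ q → p < NN Γ → q < NN Γ → xk p = xk q → p = q
  ky : ∀ p q, 2 ≤ p → 2 ≤ q → p < NN Γ → q < NN Γ → yk Γ p = yk Γ q → p = q
  ks : ∀ p q, 4 ≤ p → 4 ≤ q → p < NN Γ → q < NN Γ → sk Γ p = sk Γ q → p = q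
  mem : ∀ p, 4 ≤ p → p < NN Γ → gat Γ p ∈ Γ
  epos : 0 < e
  gh : ∀ g ∈ Γ, GH g.k (v g.u - cen g.k) (v g.u' - cen g.k) (v g.a - cen g.k)
    (v g.a' - cen g.k) (e * 100 ^ g.c)
  yr : ∀ p, 4 ≤ p → p < NN Γ → 2 - 1 / 100 < yv Γ v e p ∧ yv Γ v e p < 2 + 2 / 100
  yo : ∀ p q, 2 ≤ p → 2 ≤ q → p < NN Γ → q < NN Γ → yk Γ p < yk Γ q →
    yv Γ v e p < yv Γ v e q

variable {Γ : List Gt} {nw : ℕ} {v : ℕ → ℝ} {e : ℝ}

theorem QCC.GHp (h : QCC Γ nw v e) {p : ℕ} (hp : 4 ≤ p) (hN : p < NN Γ) :
    GH (gat Γ p).k (qcU Γ v p) (qcU' Γ v p) (qcA Γ v p) (qcA' Γ v p) (qcE Γ e p) :=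
  h.gh _ (h.mem p hp hN)

theorem QCC.xi_pos (h : QCC Γ nw v e) {p : ℕ} (hp : 4 ≤ p) (hN : p < NN Γ) :
    0 < qcxi Γ v e p :=
  (h.gx _ _ _ _ _ _ (h.GHp hp hN)).1 _ (qc_crn_8 p)

theorem QCC.y_ne (h : QCC Γ nw v e) {p q : ℕ} (hp : 2 ≤ p) (hq : 2 ≤ q) (hpN : p < NN Γ)
    (hqN : q < NN Γ) (hpq : p ≠ q) : yv Γ v e p ≠ yv Γ v e q := by
  rcases lt_trichotomy (yk Γ p) (yk Γ q) with h1 | h1 | h1
  · exact (h.yo p q hp hq hpN hqN h1).ne
  · exact absurd (h.ky p q hp hq hpN hqN h1) hpq
  · exact (h.yo q p hq hp hqN hpN h1).ne'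

/-- the truth value of `U < A` -/
theorem QCC.UA (h : QCC Γ nw v e) {p : ℕ} (hp : 4 ≤ p) (hN : p < NN Γ) :
    (decide ((gat Γ p).u < (gat Γ p).a) = true ↔ qcU Γ v p < qcA Γ v p) := by
  have hw := h.wf.wires _ (h.mem p hp hN)
  obtain ⟨h1, h2, h3, h4, h5, -⟩ := hw
  rw [decide_eq_true_iff]
  unfold qcU qcA
  constructor
  · intro h6
    have := h.nice.2.2.1 _ _ h6 (by omega)
    linarith
  · intro h6
    by_contra h7
    have h8 : (gat Γ p).a < (gat Γ p).u := by omega
    have := h.nice.2.2.1 _ _ h8 (by omega)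
    linarith

theorem qc_xk {p : ℕ} (hp : 4 ≤ p) : xk p = 8 * grp p - 6 + xr (crn p) := by
  unfold xk
  rw [if_neg (by omega)]

theorem qc_xk_iff {p q : ℕ} (hp : 4 ≤ p) (hg : grp p = grp q) :
    xk p < xk q ↔ xr (crn p) < xr (crn q) := by
  have hq : 4 ≤ q := by
    unfold grp at hg
    omega
  rw [qc_xk hp, qc_xk hq, hg]
  omega

theorem qc_xk_grp {p q : ℕ} (hp : 2 ≤ p) (hg : grp p < grp q) : xk p < xk q := by
  have hq : 4 ≤ q := by
    by_contra hn
    rw [qc_grp_small (by omega : q < 4)] at hg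
    omega
  have h1 := qc_xr_8 (crn p)
  rw [qc_xk hq]
  rcases Nat.lt_or_ge p 4 with h4 | h4
  · unfold xk
    rw [if_pos h4]
    have := qc_grp_big hq
    omega
  · rw [qc_xk h4]
    have := qc_grp_big h4
    omega

/-- slopes -/
theorem qc_sk {p : ℕ} (hw : (gat Γ p).u ≠ (gat Γ p).a) :
    sk Γ p = 8 * (grp p - 1) +
      (7 - srk (decide ((gat Γ p).u < (gat Γ p).a)) (crn p)) := by
  have e1 : hi Γ p = decide (decide (4 ≤ crn p) = decide ((gat Γ p).u < (gat Γ p).a)) := by
    unfold hi
    by_cases h1 : 4 ≤ crn p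
    · rw [if_pos h1]
      by_cases h2 : (gat Γ p).u < (gat Γ p).a
      · simp [h1, h2]
      · simp [h1, h2]
    · rw [if_neg h1]
      by_cases h2 : (gat Γ p).u < (gat Γ p).a
      · have : ¬ (gat Γ p).a < (gat Γ p).u := by omega
        simp [h1, h2, this]
      · have : (gat Γ p).a < (gat Γ p).u := by omega
        simp [h1, h2, this]
  unfold sk srk
  rw [e1]
  simp only [decide_eq_true_eq]

theorem qc_srk_8 (s : Bool) (t : ℕ) : srk s t < 8 := by
  unfold srk
  have := qc_sr_4 t
  split_ifs <;> omega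

theorem qc_sk_iff {p q : ℕ} (hw : (gat Γ q).u ≠ (gat Γ q).a) (hg : grp p = grp q) :
    sk Γ p < sk Γ q ↔ srk (decide ((gat Γ q).u < (gat Γ q).a)) (crn q) <
      srk (decide ((gat Γ q).u < (gat Γ q).a)) (crn p) := by
  have h1 := qc_srk_8 (decide ((gat Γ q).u < (gat Γ q).a)) (crn q)
  have h2 := qc_srk_8 (decide ((gat Γ q).u < (gat Γ q).a)) (crn p)
  have hgat := qc_gat (Γ := Γ) hg
  rw [qc_sk hw, qc_sk (by rw [hgat]; exact hw), hg, hgat]
  omega

/-- the difference of products -/
noncomputable def qcD (Γ : List Gt) (v : ℕ → ℝ) (e : ℝ) (p q r : ℕ) : ℝ :=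
  qcxi Γ v e q * (yv Γ v e r - yv Γ v e p) - qcxi Γ v e r * (yv Γ v e q - yv Γ v e p)

theorem qc_y2 : yv Γ v e 2 = 0 := by
  unfold yv
  rw [if_pos (by norm_num), if_neg (by norm_num)]

theorem qc_y3 : yv Γ v e 3 = 1 := by
  unfold yv
  rw [if_pos (by norm_num), if_pos rfl]

theorem qc_dsg {p q r : ℕ} (hc : p ≠ (if (gat Γ q).k then 3 else 2)) :
    (ctp (crn q) (crn r) → dsg Γ p q r =
      xor (decide (p = 2 ∧ (gat Γ q).k = true)) (decide (xk q < xk r))) ∧
    (¬ ctp (crn q) (crn r) → dsg Γ p q r = decide (yk Γ q < yk Γ r)) := by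
  unfold dsg
  rw [if_neg hc]
  exact ⟨fun h => if_pos h, fun h => if_neg h⟩

theorem QCC.D_sign (h : QCC Γ nw v e) {p q r : ℕ} (hp : 2 ≤ p) (hpq : grp p < grp q)
    (hqr : grp q = grp r) (hlt : q < r) (hr : r < NN Γ) :
    0 < sb (dsg Γ p q r) * qcD Γ v e p q r := by
  have hq4 : 4 ≤ q := by
    by_contra hn
    rw [qc_grp_small (by omega : q < 4)] at hpq
    omega
  have hr4 : 4 ≤ r := by omega
  have hqN : q < NN Γ := by omega
  have hpN : p < NN Γ := by
    have : p < q := by
      by_contra hn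
      rcases Nat.lt_or_ge q p with h1 | h1
      · have := qc_grp_mono h1
        omega
      · have : p = q := by omega
        rw [this] at hpq
        omega
    omega
  have hcrn := qc_crn_lt hlt hqr
  have hgat : gat Γ r = gat Γ q := qc_gat hqr.symm
  have hGH := h.GHp hq4 hqN
  have hUA := h.UA hq4 hqN
  have hw := h.wf.wires _ (h.mem q hq4 hqN)
  -- rewriting with the height of `p`
  have hxr : qcxi Γ v e r = cox (qcU Γ v q) (qcU' Γ v q) (qcE Γ e q) (crn r) := by
    unfold qcxi qcU qcU' qcE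
    rw [hgat]
  have her : qceta Γ v e r = coy (gat Γ q).k (qcU Γ v q) (qcU' Γ v q) (qcA Γ v q)
      (qcA' Γ v q) (qcE Γ e q) (crn r) := by
    unfold qceta qcU qcU' qcA qcA' qcE
    rw [hgat]
  have hyr : yv Γ v e r = cen (gat Γ q).k + qceta Γ v e r := by
    rw [qc_y hr4, hgat]
  have hyq := qc_y (Γ := Γ) (v := v) (e := e) hq4
  have hD : qcD Γ v e p q r =
      cox (qcU Γ v q) (qcU' Γ v q) (qcE Γ e q) (crn q) *
        (coy (gat Γ q).k (qcU Γ v q) (qcU' Γ v q) (qcA Γ v q) (qcA' Γ v q) (qcE Γ e q) (crn r) -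
          (yv Γ v e p - cen (gat Γ q).k)) -
      cox (qcU Γ v q) (qcU' Γ v q) (qcE Γ e q) (crn r) *
        (coy (gat Γ q).k (qcU Γ v q) (qcU' Γ v q) (qcA Γ v q) (qcA' Γ v q) (qcE Γ e q) (crn q) -
          (yv Γ v e p - cen (gat Γ q).k)) := by
    unfold qcD
    rw [hyr, hyq, hxr, her]
    unfold qcxi qceta
    ring
  -- the height
  have hh : (p = if (gat Γ q).k then 3 else 2) ∨
      (p ≠ (if (gat Γ q).k then 3 else 2) ∧
        ((2 - cen (gat Γ q).k - 1 / 100 < yv Γ v e p - cen (gat Γ q).k ∧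
          yv Γ v e p - cen (gat Γ q).k < 2 - cen (gat Γ q).k + 2 / 100) ∨
          ((gat Γ q).k = false ∧ yv Γ v e p - cen (gat Γ q).k = 1)) ∧
        ¬ (p = 2 ∧ (gat Γ q).k = true)) ∨
      (p = 2 ∧ (gat Γ q).k = true ∧ yv Γ v e p - cen (gat Γ q).k = -1) := by
    rcases Nat.lt_or_ge p 4 with h4 | h4
    · have h23 : p = 2 ∨ p = 3 := by omega
      rcases h23 with rfl | rfl
      · cases hk : (gat Γ q).k
        · left; rfl
        · right; right
          refine ⟨rfl, rfl, ?_⟩
          rw [qc_y2, cen, if_pos rfl]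
          norm_num
      · cases hk : (gat Γ q).k
        · right; left
          refine ⟨by norm_num, Or.inr ⟨rfl, ?_⟩, by norm_num⟩
          rw [qc_y3, cen, if_neg Bool.false_ne_true]
          norm_num
        · left; rfl
    · right; left
      have h1 := h.yr p h4 hpN
      refine ⟨?_, Or.inl ⟨by linarith [h1.1], by linarith [h1.2]⟩, by omega⟩
      split_ifs <;> omega
  rcases hh with hc | ⟨hc, hr1, hr2⟩ | ⟨hc, hk, hr1⟩
  · -- the centre
    have h0 : yv Γ v e p - cen (gat Γ q).k = 0 := by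
      cases hk : (gat Γ q).k
      · rw [hk] at hc
        rw [hc, if_neg Bool.false_ne_true, qc_y2, cen, if_neg Bool.false_ne_true]
        norm_num
      · rw [hk] at hc
        rw [hc, if_pos rfl, qc_y3, cen, if_pos rfl]
        norm_num
    have hds : dsg Γ p q r = decide (sk Γ r < sk Γ q) := by
      unfold dsg
      rw [if_pos hc]
    rw [hD, h0, sub_zero, sub_zero]
    by_cases hs : sk Γ r < sk Γ q
    · have h1 := (qc_sk_iff hw.2.2.2.2.1 hqr.symm).1 hs
      have h2 := h.gs _ _ _ _ _ _ _ hGH hUA _ _ (qc_crn_8 q) (qc_crn_8 r) h1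
      refine qc_sb_true (by rw [hds]; exact decide_eq_true hs) ?_
      linarith
    · have hs' : sk Γ q < sk Γ r := by
        rcases Nat.lt_or_ge (sk Γ q) (sk Γ r) with h1 | h1
        · exact h1
        · have := h.ks q r hq4 hr4 hqN hr (by omega)
          omega
      have hwr : (gat Γ r).u ≠ (gat Γ r).a := by rw [hgat]; exact hw.2.2.2.2.1
      have h1 := (qc_sk_iff hwr hqr).1 hs'
      rw [hgat] at h1
      have h2 := h.gs _ _ _ _ _ _ _ hGH hUA _ _ (qc_crn_8 r) (qc_crn_8 q) h1
      refine qc_sb_false (by rw [hds]; exact decide_eq_false hs) ?_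
      linarith
  · by_cases hct : ctp (crn q) (crn r)
    · have hds : dsg Γ p q r = decide (xr (crn q) < xr (crn r)) := by
        rw [(qc_dsg hc).1 hct]
        have h1 : decide (p = 2 ∧ (gat Γ q).k = true) = false := decide_eq_false hr2
        rw [h1, Bool.false_xor]
        exact decide_eq_decide.2 (qc_xk_iff hq4 hqr)
      rw [hds, hD]
      exact (h.gd1 _ _ _ _ _ _ hGH _ _ _ hcrn (qc_crn_8 r) hct).1 hr1
    · have hds : dsg Γ p q r = decide (yk Γ q < yk Γ r) := by
        exact (qc_dsg hc).2 hct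
      have h2 := h.gd2 _ _ _ _ _ _ hGH _ _ (yv Γ v e p - cen (gat Γ q).k) hcrn (qc_crn_8 r) hct
        (by
          rcases hr1 with h3 | h3
          · exact Or.inl h3
          · exact Or.inr (Or.inl h3))
      rw [hds, hD]
      by_cases hs : yk Γ q < yk Γ r
      · have h3 := h.yo q r (by omega) (by omega) hqN hr hs
        rw [hyr, hyq, her] at h3
        refine qc_sb_true (decide_eq_true hs) (h2.1 ?_)
        unfold qceta at h3
        linarith
      · have hs' : yk Γ r < yk Γ q := by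
          rcases Nat.lt_or_ge (yk Γ r) (yk Γ q) with h1 | h1
          · exact h1
          · have := h.ky q r (by omega) (by omega) hqN hr (by omega)
            omega
        have h3 := h.yo r q (by omega) (by omega) hr hqN hs'
        rw [hyr, hyq, her] at h3
        refine qc_sb_false (decide_eq_false hs) (h2.2 ?_)
        unfold qceta at h3
        linarith
  · have hc' : p ≠ (if (gat Γ q).k then 3 else 2) := by
      rw [hk, if_pos rfl]; omega
    by_cases hct : ctp (crn q) (crn r)
    · have hds : dsg Γ p q r = !decide (xr (crn q) < xr (crn r)) := by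
        rw [(qc_dsg hc').1 hct]
        have h1 : decide (p = 2 ∧ (gat Γ q).k = true) = true := decide_eq_true ⟨hc, hk⟩
        rw [h1, Bool.true_xor]
        congr 1
        exact decide_eq_decide.2 (qc_xk_iff hq4 hqr)
      rw [hds, hD]
      exact (h.gd1 _ _ _ _ _ _ hGH _ _ _ hcrn (qc_crn_8 r) hct).2 ⟨hk, hr1⟩
    · have hds : dsg Γ p q r = decide (yk Γ q < yk Γ r) := by
        exact (qc_dsg hc').2 hct
      have h2 := h.gd2 _ _ _ _ _ _ hGH _ _ (yv Γ v e p - cen (gat Γ q).k) hcrn (qc_crn_8 r) hct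
        (Or.inr (Or.inr ⟨hk, hr1⟩))
      rw [hds, hD]
      by_cases hs : yk Γ q < yk Γ r
      · have h3 := h.yo q r (by omega) (by omega) hqN hr hs
        rw [hyr, hyq, her] at h3
        refine qc_sb_true (decide_eq_true hs) (h2.1 ?_)
        unfold qceta at h3
        linarith
      · have hs' : yk Γ r < yk Γ q := by
          rcases Nat.lt_or_ge (yk Γ r) (yk Γ q) with h1 | h1
          · exact h1
          · have := h.ky q r (by omega) (by omega) hqN hr (by omega)
            omega
        have h3 := h.yo r q (by omega) (by omega) hr hqN hs'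
        rw [hyr, hyq, her] at h3
        refine qc_sb_false (decide_eq_false hs) (h2.2 ?_)
        unfold qceta at h3
        linarith

theorem qc_D_anti (p q r : ℕ) : qcD Γ v e p r q = -qcD Γ v e p q r := by
  unfold qcD
  ring

theorem qc_ne_of_sb {b : Bool} {x : ℝ} (h : 0 < sb b * x) : x ≠ 0 := by
  rintro rfl
  rw [mul_zero] at h
  exact lt_irrefl _ h

theorem qc_transfer {b : Bool} {x y : ℝ} (h1 : 0 < sb b * x) (h2 : 0 < x * y) :
    0 < sb b * y := by
  cases b
  · rw [sb, if_neg Bool.false_ne_true] at h1 ⊢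
    have hx : x < 0 := by linarith
    have hy : y < 0 := by
      by_contra hn
      have := mul_nonpos_of_nonpos_of_nonneg hx.le (not_lt.1 hn)
      linarith
    linarith
  · rw [sb, if_pos rfl] at h1 ⊢
    have hx : 0 < x := by linarith
    have hy : 0 < y := (pos_iff_pos_of_mul_pos h2).1 hx
    linarith

theorem QCC.D_ne (h : QCC Γ nw v e) {p q r : ℕ} (hp : 2 ≤ p) (hpq : grp p < grp q)
    (hqr : grp q = grp r) (hne : q ≠ r) (hq : q < NN Γ) (hr : r < NN Γ) :
    qcD Γ v e p q r ≠ 0 := by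
  rcases Nat.lt_or_ge q r with h1 | h1
  · exact qc_ne_of_sb (h.D_sign hp hpq hqr h1 hr)
  · have h2 : r < q := by omega
    have h3 := qc_ne_of_sb (h.D_sign hp (by omega) hqr.symm h2 hq)
    rw [qc_D_anti] at h3
    exact fun h4 => h3 (by rw [h4, neg_zero])

/-- the abscissa of the centre of a group -/
noncomputable def qck (Γ : List Gt) (s : ℕ) : ℝ :=
  cen (Γ.getD (s - 1) (false, 0, 0, 0, 0, 0)).k

theorem qc_qck (p : ℕ) : qck Γ (grp p) = cen (gat Γ p).k := rfl

theorem qc_cen_nonneg (b : Bool) : 0 ≤ cen b := by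
  cases b <;> simp [cen]

theorem qc_T {x ξ η y : ℕ → ℝ} {c k kk : ℝ} {p q r : ℕ} (hxp : x p = k + c * ξ p)
    (hxq : x q = k + c * ξ q) (hxr : x r = k + c * ξ r) (hyp : y p = kk + η p)
    (hyq : y q = kk + η q) (hyr : y r = kk + η r) :
    (x q - x p) * (y r - y p) - (x r - x p) * (y q - y p) =
      c * ((ξ q - ξ p) * (η r - η p) - (ξ r - ξ p) * (η q - η p)) := by
  rw [hxp, hxq, hxr, hyp, hyq, hyr]
  ring

theorem st_QC (hYO : ST_YO) (hGX : ST_GX) (hGS : ST_GS) (hGD1 : ST_GD1) (hGD2 : ST_GD2)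
    (hGT : ST_GT) (hSC : ST_SC) (hDT3 : ST_DT3) (hKINJ : ST_KINJ) : ST_QC := by
  intro Γ nw v hWF hN
  obtain ⟨e, he, hgh, hyr, hyo⟩ := hYO Γ nw v hWF hN
  obtain ⟨kx, ky, ks, -, km⟩ := hKINJ Γ nw hWF
  have H : QCC Γ nw v e :=
    { wf := hWF
      nice := hN
      gx := hGX
      gs := hGS
      gd1 := hGD1
      gd2 := hGD2
      gt := hGT
      kx := kx
      ky := ky
      ks := ks
      mem := fun p hp hpN => (km p hp hpN).1
      epos := he
      gh := hgh
      yr := hyr
      yo := hyo }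
  have hNN : NN Γ = 4 + 8 * Γ.length := rfl
  obtain ⟨c, hc, hx⟩ := hSC Γ.length (qck Γ) (qcxi Γ v e) (yv Γ v e)
    (fun p hp hpN => H.xi_pos hp hpN)
    (fun p q hp hq hpN hqN hpq => H.y_ne hp hq hpN hqN hpq)
    (fun p q r hp hpq hqr hne hq hr => H.D_ne hp hpq hqr hne hq hr)
  set x : ℕ → ℝ := fun p => if p < 4 then (if p = 3 then 1 else 0) else
    qck Γ (grp p) + c (grp p) * qcxi Γ v e p with hxdef
  have hx4 : ∀ p, 4 ≤ p → x p = qck Γ (grp p) + c (grp p) * qcxi Γ v e p := by
    intro p hp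
    simp only [hxdef]
    rw [if_neg (by omega)]
  have hx2 : x 2 = 0 := by simp [hxdef]
  have hx3 : x 3 = 1 := by simp [hxdef]
  obtain ⟨S1, S2, S3⟩ := hx x hx2 hx3 (fun p hp _ => hx4 p hp)
  -- the order of the abscissae
  have XO : ∀ p q, 2 ≤ p → 2 ≤ q → p < NN Γ → q < NN Γ → xk p < xk q → x p < x q := by
    intro p q hp hq hpN hqN hlt
    rcases lt_trichotomy (grp p) (grp q) with h1 | h1 | h1
    · exact S1 p q hp hq hqN h1
    · rcases Nat.lt_or_ge p 4 with h4 | h4
      · have hq4 : q < 4 := by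
          by_contra hn
          have := qc_grp_big (not_lt.1 hn)
          rw [qc_grp_small h4] at h1
          omega
        unfold xk at hlt
        rw [if_pos h4, if_pos hq4] at hlt
        have e1 : p = 2 := by omega
        have e2 : q = 3 := by omega
        rw [e1, e2, hx2, hx3]
        norm_num
      · have hq4 : 4 ≤ q := by
          by_contra hn
          rw [qc_grp_small (not_le.1 hn)] at h1
          have := qc_grp_big h4
          omega
        rw [hx4 p h4, hx4 q hq4, ← h1]
        have h2 := (qc_xk_iff h4 h1).1 hlt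
        have h3 := (H.gx _ _ _ _ _ _ (H.GHp h4 hpN)).2 _ _ (qc_crn_8 p) (qc_crn_8 q) h2
        have h5 : qcxi Γ v e q = cox (qcU Γ v p) (qcU' Γ v p) (qcE Γ e p) (crn q) := by
          unfold qcxi qcU qcU' qcE
          rw [qc_gat (Γ := Γ) h1.symm]
        have h6 : qcxi Γ v e p < qcxi Γ v e q := by
          rw [h5]
          exact h3
        have := mul_lt_mul_of_pos_left h6 (hc (grp p))
        linarith
    · have := qc_xk_grp hq h1
      omega
  refine ⟨x, yv Γ v e, ?_, ?_⟩
  · intro p hp hpN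
    rcases Nat.lt_or_ge p 4 with h4 | h4
    · have h23 : p = 2 ∨ p = 3 := by omega
      rcases h23 with rfl | rfl
      · rw [hx2, qc_y2]; exact ⟨le_refl _, le_refl _⟩
      · rw [hx3, qc_y3]; exact ⟨zero_le_one, zero_le_one⟩
    · constructor
      · rw [hx4 p h4, qc_qck]
        have h1 := qc_cen_nonneg (gat Γ p).k
        have h2 := mul_pos (hc (grp p)) (H.xi_pos h4 hpN)
        linarith
      · have h1 := hyr p h4 hpN
        linarith [h1.1]
  · intro p q r hpq hqr hrN
    obtain ⟨d1, d2, d3, d4⟩ := hDT3 x (yv Γ v e)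
    have hqN : q < NN Γ := by omega
    have hpN : p < NN Γ := by omega
    rcases Nat.lt_or_ge p 2 with hp2 | hp2
    · rcases Nat.lt_or_ge p 1 with hp1 | hp1
      · -- the vertical direction
        have e0 : p = 0 := by omega
        subst e0
        unfold sg0
        rw [if_pos rfl]
        by_cases hq1 : q = 1
        · rw [if_pos hq1, hq1, d1 r (by omega)]
          exact qc_sb_false rfl (by norm_num)
        · rw [if_neg hq1, d2 q r (by omega) (by omega)]
          by_cases hs : xk q < xk r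
          · refine qc_sb_true (decide_eq_true hs) ?_
            have := XO q r (by omega) (by omega) hqN hrN hs
            linarith
          · refine qc_sb_false (decide_eq_false hs) ?_
            have h1 : xk r < xk q := by
              rcases Nat.lt_or_ge (xk r) (xk q) with h1 | h1
              · exact h1
              · have := kx q r (by omega) (by omega) hqN hrN (by omega)
                omega
            have := XO r q (by omega) (by omega) hrN hqN h1
            linarith
      · have e0 : p = 1 := by omega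
        subst e0
        unfold sg0
        rw [if_neg (by norm_num), if_pos rfl, d3 q r (by omega) (by omega)]
        by_cases hs : yk Γ r < yk Γ q
        · refine qc_sb_true (decide_eq_true hs) ?_
          have := hyo r q (by omega) (by omega) hrN hqN hs
          linarith
        · refine qc_sb_false (decide_eq_false hs) ?_
          have h1 : yk Γ q < yk Γ r := by
            rcases Nat.lt_or_ge (yk Γ q) (yk Γ r) with h1 | h1
            · exact h1
            · have := ky q r (by omega) (by omega) hqN hrN (by omega)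
              omega
          have := hyo q r (by omega) (by omega) hqN hrN h1
          linarith
    · have hgpq := qc_grp_mono hpq
      have hgqr := qc_grp_mono hqr
      unfold sg0
      rw [if_neg (by omega), if_neg (by omega), d4 p q r hp2 (by omega) (by omega)]
      by_cases h1 : grp q < grp r
      · rw [if_pos h1]
        have h2 := S2 p q r hp2 (by omega) (by omega) (by omega) h1 hrN
        by_cases hs : yk Γ q < yk Γ p
        · refine qc_sb_true (decide_eq_true hs) ?_
          have h3 := hyo q p (by omega) (by omega) hqN hpN hs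
          exact (pos_iff_pos_of_mul_pos h2).1 (by linarith)
        · refine qc_sb_false (decide_eq_false hs) ?_
          have h4 : yk Γ p < yk Γ q := by
            rcases Nat.lt_or_ge (yk Γ p) (yk Γ q) with h1 | h1
            · exact h1
            · have := ky p q (by omega) (by omega) hpN hqN (by omega)
              omega
          have h3 := hyo p q (by omega) (by omega) hpN hqN h4
          by_contra hn
          have := mul_nonpos_of_nonpos_of_nonneg
            (show -(yv Γ v e q - yv Γ v e p) ≤ 0 by linarith) (not_lt.1 hn)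
          linarith
      · rw [if_neg h1]
        have hgqr' : grp q = grp r := by omega
        by_cases h2 : grp p < grp q
        · rw [if_pos h2]
          have h3 := S3 p q r hp2 h2 hgqr' (by omega) hqN hrN
          exact qc_transfer (H.D_sign hp2 h2 hgqr' hqr hrN) h3
        · rw [if_neg h2]
          have hgpq' : grp p = grp q := by omega
          have hp4 : 4 ≤ p := by
            by_contra hn
            have hp0 := qc_grp_small (not_le.1 hn)
            have hr4 : r < 4 := by
              by_contra hn'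
              have := qc_grp_big (not_lt.1 hn')
              omega
            omega
          have hq4 : 4 ≤ q := by omega
          have hr4 : 4 ≤ r := by omega
          have hgp : gat Γ p = gat Γ q := qc_gat hgpq'
          have hgr : gat Γ r = gat Γ q := qc_gat hgqr'.symm
          have hT := qc_T (x := x) (ξ := qcxi Γ v e) (η := qceta Γ v e)
            (y := yv Γ v e) (c := c (grp q)) (k := qck Γ (grp q)) (kk := cen (gat Γ q).k)
            (p := p) (q := q) (r := r)
            (by rw [hx4 p hp4, hgpq']) (hx4 q hq4) (by rw [hx4 r hr4, ← hgqr'])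
            (by rw [qc_y hp4, hgp]) (qc_y hq4) (by rw [qc_y hr4, hgr])
          rw [hT]
          have hxp : qcxi Γ v e p = cox (qcU Γ v q) (qcU' Γ v q) (qcE Γ e q) (crn p) := by
            unfold qcxi qcU qcU' qcE
            rw [hgp]
          have hxr : qcxi Γ v e r = cox (qcU Γ v q) (qcU' Γ v q) (qcE Γ e q) (crn r) := by
            unfold qcxi qcU qcU' qcE
            rw [hgr]
          have hep : qceta Γ v e p = coy (gat Γ q).k (qcU Γ v q) (qcU' Γ v q) (qcA Γ v q)
              (qcA' Γ v q) (qcE Γ e q) (crn p) := by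
            unfold qceta qcU qcU' qcA qcA' qcE
            rw [hgp]
          have her : qceta Γ v e r = coy (gat Γ q).k (qcU Γ v q) (qcU' Γ v q) (qcA Γ v q)
              (qcA' Γ v q) (qcE Γ e q) (crn r) := by
            unfold qceta qcU qcU' qcA qcA' qcE
            rw [hgr]
          have hGT' := H.gt _ _ _ _ _ _ _ (H.GHp hq4 hqN) (H.UA hq4 hqN) _ _ _
            (qc_crn_lt hpq hgpq') (qc_crn_lt hqr hgqr') (qc_crn_8 r)
          rw [← hxp, ← hxr, ← hep, ← her] at hGT'
          have h5 : 0 < c (grp q) * (sb (tb (crn p / 2) (crn q / 2) (crn r / 2)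
              (decide ((gat Γ q).u < (gat Γ q).a))) *
              ((qcxi Γ v e q - qcxi Γ v e p) * (qceta Γ v e r - qceta Γ v e p) -
                (qcxi Γ v e r - qcxi Γ v e p) * (qceta Γ v e q - qceta Γ v e p))) :=
            mul_pos (hc (grp q)) hGT'
          linarith

end Pool.Agent.Helper54.SP
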