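import Pool.Agent.Helper54.SP.StmtsP

set_option autoImplicit false

namespace Pool.Agent.Helper54.SP

open Finset

theorem snd_fans {Γ : List Gt} {m : ℕ} {P Q : List ℕ → Prop} (h : ∀ g, P g → Q g)
    (hP : Fans Γ m P) : Fans Γ m Q := by
  obtain ⟨h1, h2, h3, h4, h5, h6, h7⟩ := hP
  exact ⟨fun p q hn => h _ (h1 p q hn), fun p q hn => h _ (h2 p q hn),
    fun p q hn => h _ (h3 p q hn), fun p q hn => h _ (h4 p q hn), h _ h5, h _ h6, h _ h7⟩

theorem st_SND (hFAC : ST_FAC) (hFMEM : ST_FMEM) (hOSP : ST_OSP) (hFANS : ST_FANS)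
    (hORD : ST_ORD) (hQS : ST_QS) : ST_SND := by
  intro Γ nw m hWF hm hR
  have hval : Valid (2 + m) (NN Γ + m) (fac Γ nw m) := by
    intro f hf
    have h1 := hFMEM (2 + m) (NN Γ + m) (chF Γ nw m) f hf
    exact ⟨h1.1, h1.2.1, h1.2.2.2.1⟩
  obtain ⟨X, hX⟩ := hFAC (2 + m) (NN Γ + m) (fac Γ nw m) (by omega) hval hR
  have e1 : 2 + m + 1 = 3 + m := by omega
  rw [e1] at hX
  have hF : Fans Γ m (OS (3 + m) X (NN Γ + m)) := by
    refine snd_fans ?_ (hFANS Γ nw m hWF hm)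
    rintro g ⟨f, hf, hfg⟩
    exact hOSP (3 + m) X (NN Γ + m) f g hfg (by rw [(hval f hf).1]; omega) (hX f hf)
  obtain ⟨x, y, hxy⟩ := hORD Γ nw m X hWF hm hF
  exact hQS Γ nw x y hWF hxy

end Pool.Agent.Helper54.SP
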